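import Pool.Agent.N986.JF.Main

/-!
# Finite generation of all terms of the Johnson filtration

`Out π` is the group of outer automorphisms of `π`, and `johnson π k` is the kernel of
`Out(π) → Out(π / γ_{k+1}(π))`. If `π` is the fundamental group of the closed oriented surface of
genus `g`, this is the `k`-th term `I_g(k)` of the Johnson filtration (`k ≥ 1`), and
`johnson π 1` is the Torelli group.

If the Torelli group and its commutator subgroup are finitely generated (which is known for
`g ≥ 4`), then so are all terms of the Johnson filtration, and their first homology groups.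
The core of the result (helper991) is the first part, which has no such hypothesis: a normal
subgroup `N` with nilpotent quotient of a finitely generated group `G` is finitely generated if and
only if `N [G,G]` is. Parts of the proof are due to helpers
984, 985, 986, 987, 991.
-/

set_option autoImplicit false

namespace Pool.Agent.Results.MP_c58f18_gt.FiniteGeneration

open Pool.Agent.N986.JF

theorem result :
    (∀ (G : Type) [Group G], Group.FG G → ∀ N : Subgroup G, N.Normal →
      (∃ c : ℕ, (⊤ : Subgroup G).lowerCentralSeries c ≤ N) → (N.FG ↔ (N ⊔ commutator G).FG)) ∧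
    (∀ (π : Type) [Group π], (johnson π 1).FG → (commutator (johnson π 1)).FG →
      ∀ k : ℕ, 1 ≤ k → ∀ K : Subgroup (Out π), johnson π k ≤ K → K ≤ johnson π 1 →
        K.FG ∧ Module.Finite ℤ (Additive (Abelianization K))) := by
  refine ⟨fun G _ hG N hN hc => Pool.Agent.N991.JF.fg_iff_sup hG N hc, ?_⟩
  intro π _ h1 h2 k hk K hK hK1
  obtain ⟨j, rfl⟩ : ∃ j, k = j + 1 := ⟨k - 1, by omega⟩
  have h := johnson_fg π h1 h2 j K hK1 hK
  exact ⟨h, h1_finite K h⟩

end Pool.Agent.Results.MP_c58f18_gt.FiniteGeneration
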